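import Pool.Agent.Q26.FO.Family

/-!
# The rationality of the very general Gushel–Mukai fourfold and fields of positive characteristic
-/

set_option autoImplicit false

namespace Pool.Agent.Results.MP_274aea_ag.FiniteFieldCriterion

open MvPolynomial Pool.Agent.Q26.FO

/-- the Plücker coordinates of `Gr(2, 5)` -/
abbrev Pairs : Type := {p : Fin 5 × Fin 5 // p.1 < p.2}

/-- the coefficients of a linear form and of a quadratic form in the Plücker coordinates -/
abbrev Params : Type := Pairs ⊕ (Pairs × Pairs)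

/-- the Plücker coordinates of the rows of `A` -/
def minor {S : Type} [CommRing S] (A : Matrix (Fin 2) (Fin 5) S) (s : Pairs) : S :=
  A 0 s.1.1 * A 1 s.1.2 - A 0 s.1.2 * A 1 s.1.1

/-- the linear form and the quadratic form with coefficients `t` at the Plücker coordinates of
`A` -/
noncomputable def sections {K : Type} [CommRing K] {m : ℕ} (t : Params → K)
    (A : Matrix (Fin 2) (Fin 5) (MvPolynomial (Fin m) K)) : Fin 2 → MvPolynomial (Fin m) K :=
  ![∑ s : Pairs, C (t (Sum.inl s)) * minor A s,
    ∑ s : Pairs, ∑ s' : Pairs, C (t (Sum.inr (s, s'))) * minor A s * minor A s']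

/-- the equations of the Gushel–Mukai fourfold with parameters `t` in the big cell of `Gr(2, 5)` -/
noncomputable def equations (K : Type) [Field K] (t : Params → K) :
    Fin 2 → MvPolynomial (Fin 6) K :=
  sections t !![1, 0, X 0, X 1, X 2; 0, 1, X 3, X 4, X 5]

/-- the same equations, homogenized with the variable `x_0` -/
noncomputable def homEquations (K : Type) [Field K] (t : Params → K) :
    Fin 2 → MvPolynomial (Fin 7) K :=
  sections t !![X 0, 0, X 1, X 2, X 3; 0, X 0, X 4, X 5, X 6]

/-- The Gushel–Mukai fourfold with parameters `t` has a birational parametrization: there are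
rational functions `y 0, …, y 5` of four parameters `t_1, …, t_4` which satisfy the equations, and
polynomials `h 0, …, h 4` with `h 0 (y) ≠ 0` and `h i (y) = t_i * h 0 (y)`. -/
def Parametrizable (K : Type) [Field K] (t : Params → K) : Prop :=
  ∃ (y : Fin 6 → FractionRing (MvPolynomial (Fin 4) K)) (h : Fin 5 → MvPolynomial (Fin 6) K),
    (∀ i, aeval y (equations K t i) = 0) ∧ aeval y (h 0) ≠ 0 ∧
    ∀ i : Fin 4, aeval y (h i.succ) =
      algebraMap (MvPolynomial (Fin 4) K) _ (X i) * aeval y (h 0)

/-- the same with polynomials of degree at most `D` in each parameter and forms of degree `D` -/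
def ParametrizableInDegree (D : ℕ) (K : Type) [Field K] (t : Params → K) : Prop :=
  ∃ (g : Fin 7 → MvPolynomial (Fin 4) K) (H : Fin 5 → MvPolynomial (Fin 7) K),
    (∀ i j, (g i).degreeOf j ≤ D) ∧ (∀ i, (H i).IsHomogeneous D) ∧ g 0 ≠ 0 ∧
    (∀ i, bind₁ g (homEquations K t i) = 0) ∧ bind₁ g (H 0) ≠ 0 ∧
    ∀ i : Fin 4, bind₁ g (H i.succ) = X i * bind₁ g (H 0)

/-- the very general Gushel–Mukai fourfold has no birational parametrization -/
def VeryGeneralIrrational : Prop :=
  ∃ P : ℕ → MvPolynomial Params ℂ, (∀ k, P k ≠ 0) ∧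
    ∀ t : Params → ℂ, (∀ k, eval t (P k) ≠ 0) → ¬ Parametrizable ℂ t

/-- the parameters over `K` with a birational parametrization of degree at most `D` are not Zariski
dense -/
def DegreeNotDense (D : ℕ) (K : Type) [Field K] : Prop :=
  ∃ Ψ : MvPolynomial Params K, Ψ ≠ 0 ∧
    ∀ t : Params → K, ParametrizableInDegree D K t → eval t Ψ = 0

/-- all parameters outside of a hypersurface with integral coefficients have a birational
parametrization of degree at most `D` -/
def AlmostAllInDegree (D : ℕ) : Prop :=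
  ∃ Ψ : MvPolynomial Params ℤ, Ψ ≠ 0 ∧
    ∀ (K : Type) [Field K] [IsAlgClosed K] [CharZero K] (t : Params → K),
      aeval t Ψ ≠ 0 → ParametrizableInDegree D K t

/-- the problem: the very general Gushel–Mukai fourfold is rational (the frozen statement S00087) -/
def VeryGeneralRational : Prop :=
    ∃ P : ℕ → MvPolynomial ({p : Fin 5 × Fin 5 // p.1 < p.2} ⊕
        ({p : Fin 5 × Fin 5 // p.1 < p.2} × {p : Fin 5 × Fin 5 // p.1 < p.2})) ℂ,
      (∀ n, P n ≠ 0) ∧
      ∀ t : ({p : Fin 5 × Fin 5 // p.1 < p.2} ⊕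
          ({p : Fin 5 × Fin 5 // p.1 < p.2} × {p : Fin 5 × Fin 5 // p.1 < p.2})) → ℂ,
        (∀ n, MvPolynomial.eval t (P n) ≠ 0) →
        ∀ A : Matrix (Fin 2) (Fin 5) (MvPolynomial (Fin 6) ℂ),
          A = !![(1 : MvPolynomial (Fin 6) ℂ), 0, X 0, X 1, X 2; 0, 1, X 3, X 4, X 5] →
        ∀ J : Ideal (MvPolynomial (Fin 6) ℂ),
          J = Ideal.span
            {∑ s : {p : Fin 5 × Fin 5 // p.1 < p.2},
                C (t (Sum.inl s)) * (A 0 s.1.1 * A 1 s.1.2 - A 0 s.1.2 * A 1 s.1.1),
             ∑ s : {p : Fin 5 × Fin 5 // p.1 < p.2}, ∑ s' : {p : Fin 5 × Fin 5 // p.1 < p.2},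
                C (t (Sum.inr (s, s'))) *
                  (A 0 s.1.1 * A 1 s.1.2 - A 0 s.1.2 * A 1 s.1.1) *
                  (A 0 s'.1.1 * A 1 s'.1.2 - A 0 s'.1.2 * A 1 s'.1.1)} →
          J.IsPrime ∧
            Nonempty (FractionRing (MvPolynomial (Fin 6) ℂ ⧸ J) ≃ₐ[ℂ]
              FractionRing (MvPolynomial (Fin 4) ℂ))

section proofs

theorem map_minor {S T : Type} [CommRing S] [CommRing T] (f : S →+* T)
    (A : Matrix (Fin 2) (Fin 5) S) (s : Pairs) : f (minor A s) = minor (A.map f) s := by
  simp [minor]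

theorem map_sections {R S : Type} [CommRing R] [CommRing S] (f : R →+* S) {m : ℕ}
    (t : Params → R) (A : Matrix (Fin 2) (Fin 5) (MvPolynomial (Fin m) R)) (i : Fin 2) :
    map f (sections t A i) = sections (fun j => f (t j)) (A.map (map f)) i := by
  fin_cases i
  · simp [sections, map_minor]
  · simp [sections, map_minor]

theorem dehom_sections {K : Type} [Field K] {m : ℕ} (t : Params → K)
    (A : Matrix (Fin 2) (Fin 5) (MvPolynomial (Fin (m + 1)) K)) (i : Fin 2) :
    dehom (sections t A i) = sections t (A.map dehom) i := by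
  have h1 : ∀ s, dehom (minor A s) = minor (A.map dehom) s := by
    intro s
    simp [minor, dehom]
  have h2 : ∀ a b : MvPolynomial (Fin (m + 1)) K, dehom (a * b) = dehom a * dehom b :=
    fun a b => by simp [dehom]
  have h3 : ∀ a : K, dehom (C a : MvPolynomial (Fin (m + 1)) K) = C a :=
    fun a => by simp [dehom, algebraMap_eq]
  fin_cases i
  · change dehom (∑ s : Pairs, C (t (Sum.inl s)) * minor A s) = _
    rw [dehom, map_sum]
    refine Finset.sum_congr rfl fun s _ => ?_
    change dehom _ = _
    rw [h2, h3, h1]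
  · change dehom (∑ s : Pairs, ∑ s' : Pairs, C (t (Sum.inr (s, s'))) * minor A s * minor A s') = _
    rw [dehom, map_sum]
    refine Finset.sum_congr rfl fun s _ => ?_
    rw [map_sum]
    refine Finset.sum_congr rfl fun s' _ => ?_
    change dehom _ = _
    rw [h2, h2, h3, h1, h1]

theorem homMatrix_isHomogeneous (K : Type) [Field K] (i : Fin 2) (j : Fin 5) :
    ((!![X 0, 0, X 1, X 2, X 3; 0, X 0, X 4, X 5, X 6] :
      Matrix (Fin 2) (Fin 5) (MvPolynomial (Fin 7) K)) i j).IsHomogeneous 1 := by
  fin_cases i <;> fin_cases j <;> first | exact isHomogeneous_X _ _ | exact isHomogeneous_zero _ _ _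

/-- the degrees of the equations -/
def deg : Fin 2 → ℕ := ![2, 4]

theorem homEquations_isHomogeneous (K : Type) [Field K] (t : Params → K) (i : Fin 2) :
    (homEquations K t i).IsHomogeneous (deg i) := by
  let B : Matrix (Fin 2) (Fin 5) (MvPolynomial (Fin 7) K) :=
    !![X 0, 0, X 1, X 2, X 3; 0, X 0, X 4, X 5, X 6]
  have h1 : ∀ s : Pairs, (minor B s).IsHomogeneous 2 := by
    intro s
    exact ((homMatrix_isHomogeneous K _ _).mul (homMatrix_isHomogeneous K _ _)).sub
      ((homMatrix_isHomogeneous K _ _).mul (homMatrix_isHomogeneous K _ _))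
  fin_cases i
  · change (∑ s : Pairs, C (t (Sum.inl s)) * minor B s).IsHomogeneous 2
    refine IsHomogeneous.sum _ _ _ fun s _ => ?_
    have h2 := (isHomogeneous_C (Fin 7) (t (Sum.inl s))).mul (h1 s)
    simpa using h2
  · change (∑ s : Pairs, ∑ s' : Pairs,
      C (t (Sum.inr (s, s'))) * minor B s * minor B s').IsHomogeneous 4
    refine IsHomogeneous.sum _ _ _ fun s _ => IsHomogeneous.sum _ _ _ fun s' _ => ?_
    have h2 := ((isHomogeneous_C (Fin 7) (t (Sum.inr (s, s')))).mul (h1 s)).mul (h1 s')
    simpa using h2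

theorem dehom_homEquations (K : Type) [Field K] (t : Params → K) (i : Fin 2) :
    dehom (homEquations K t i) = equations K t i := by
  rw [homEquations, dehom_sections, equations]
  congr 1
  ext1 a b
  fin_cases a <;> fin_cases b <;> simp [dehom]
  all_goals rfl

/-- the universal equations -/
noncomputable def univ : Fin 2 → MvPolynomial (Fin (6 + 1)) (MvPolynomial Params ℤ) :=
  sections (fun j => X j) !![X 0, 0, X 1, X 2, X 3; 0, X 0, X 4, X 5, X 6]

theorem map_univ (K : Type) [Field K] (t : Params → K) (i : Fin 2) :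
    map (ev t) (univ i) = homEquations K t i := by
  rw [univ, map_sections, homEquations]
  congr 1
  · funext j
    rw [ev_X]
  · ext1 a b
    fin_cases a <;> fin_cases b <;> simp

end proofs

/-- The very general Gushel–Mukai fourfold is irrational if and only if, for each degree `D`, for
infinitely many (equivalently all but finitely many) primes `p` the Gushel–Mukai fourfolds over
`F̄_p` with a birational parametrization of degree at most `D` are not Zariski dense; and then the
problem has a negative answer. -/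
theorem result :
    [VeryGeneralIrrational,
      ∀ D, DegreeNotDense D ℂ,
      ∀ D, {p : Nat.Primes | DegreeNotDense D (Fbar p)}.Infinite,
      ∀ D, {p : Nat.Primes | ¬ DegreeNotDense D (Fbar p)}.Finite].TFAE ∧
    [¬ VeryGeneralIrrational,
      ∃ D, AlmostAllInDegree D,
      ∃ D, {p : Nat.Primes | ¬ DegreeNotDense D (Fbar p)}.Infinite,
      ∃ D, {p : Nat.Primes | DegreeNotDense D (Fbar p)}.Finite].TFAE ∧
    (VeryGeneralRational → ∃ D, AlmostAllInDegree D ∧
      {p : Nat.Primes | DegreeNotDense D (Fbar p)}.Finite) := by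
  let R : ℕ → Pred Params := fun D K _ t => HasPar 4 D K fun i => map (ev t) (univ i)
  have hR : ∀ D, IsFirstOrder (R D) := fun D => isFirstOrder_hasPar 4 D univ
  have hR' : ∀ (D : ℕ) (K : Type) [Field K] (t : Params → K),
      R D K t ↔ ParametrizableInDegree D K t := by
    intro D K _ t
    change HasPar 4 D K (fun i => map (ev t) (univ i)) ↔ _
    simp only [map_univ]
    rfl
  have h0 : ∀ (D : ℕ) (K : Type) [Field K], DegreeNotDense D K ↔ NotDense (R D) K := by
    intro D K _
    refine exists_congr fun Ψ => and_congr Iff.rfl (forall_congr' fun t => ?_)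
    rw [hR']
  have h0' : ∀ D, AlmostAllInDegree D ↔ ∃ Ψ : MvPolynomial Params ℤ, Ψ ≠ 0 ∧
      ∀ (K : Type) [Field K] [IsAlgClosed K] [CharZero K], HoldsOutside (R D) Ψ K := by
    intro D
    refine exists_congr fun Ψ => and_congr Iff.rfl ?_
    refine forall_congr' fun K => forall_congr' fun _ => forall_congr' fun _ =>
      forall_congr' fun _ => forall_congr' fun t => ?_
    rw [hR']
  have h1 : VeryGeneralIrrational ↔ ∀ D, NotDense (R D) ℂ := by
    have h2 := veryGeneral_family 4 univ deg (fun t i => by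
      rw [map_univ]
      exact homEquations_isHomogeneous ℂ t i)
    rw [← h2]
    refine exists_congr fun P => and_congr Iff.rfl (forall_congr' fun t => ?_)
    refine imp_congr_right fun _ => not_congr ?_
    simp only [map_univ, dehom_homEquations]
    rfl
  have hirr : VeryGeneralRational → ¬ VeryGeneralIrrational := by
    rintro ⟨P, hP, h⟩ ⟨P', hP', h'⟩
    obtain ⟨t, -, ht⟩ := exists_avoiding (fun k : ℕ ⊕ ℕ => Sum.elim P P' k)
      (fun k => by
        cases k with
        | inl k => exact hP k
        | inr k => exact hP' k) isOpen_univ ⟨fun _ => 0, Set.mem_univ _⟩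
    obtain ⟨-, ⟨e⟩⟩ := h t (fun k => ht (Sum.inl k)) _ rfl _ rfl
    refine h' t (fun k => ht (Sum.inr k)) (parametrized_of_equiv (equations ℂ t) (fun i => ?_) e)
    refine Ideal.subset_span ?_
    fin_cases i
    · exact Or.inl rfl
    · exact Or.inr rfl
  have h3 : [¬ VeryGeneralIrrational,
      ∃ D, AlmostAllInDegree D,
      ∃ D, {p : Nat.Primes | ¬ DegreeNotDense D (Fbar p)}.Infinite,
      ∃ D, {p : Nat.Primes | DegreeNotDense D (Fbar p)}.Finite].TFAE := by
    rw [h1, not_forall]
    simp only [h0, h0']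
    tfae_have 1 → 2 := by
      rintro ⟨D, hD⟩
      obtain ⟨Ψ, hΨ, h2, -⟩ := ((hR D).dense_law.out 0 1).1 hD
      exact ⟨D, Ψ, hΨ, h2⟩
    tfae_have 2 → 1 := by
      rintro ⟨D, Ψ, hΨ, h2⟩
      exact ⟨D, (h2 ℂ).dense (charZero_map_ne_zero ℂ Ψ hΨ)⟩
    tfae_have 1 ↔ 3 := exists_congr fun D => (hR D).dense_law.out 0 2
    tfae_have 1 ↔ 4 := exists_congr fun D => (hR D).dense_law.out 0 3
    tfae_finish
  refine ⟨?_, h3, fun h => ?_⟩
  · simp only [h0]
    tfae_have 1 ↔ 2 := h1
    tfae_have 2 ↔ 3 := forall_congr' fun D => (hR D).notDense_law.out 0 2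
    tfae_have 2 ↔ 4 := forall_congr' fun D => (hR D).notDense_law.out 0 3
    tfae_finish
  · have h4 := hirr h
    rw [h1, not_forall] at h4
    obtain ⟨D, hD⟩ := h4
    refine ⟨D, ?_, ?_⟩
    · obtain ⟨Ψ, hΨ, h2, -⟩ := ((hR D).dense_law.out 0 1).1 hD
      exact (h0' D).2 ⟨Ψ, hΨ, h2⟩
    · simp only [h0]
      exact ((hR D).dense_law.out 0 3).1 hD

end Pool.Agent.Results.MP_274aea_ag.FiniteFieldCriterion
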